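import Pool.Agent.H45Fcs.Sep

/-!
Free groups are conjugacy separable: the choice of the cyclic quotient and the induction.
-/

set_option autoImplicit false

namespace Pool.Agent.H45Fcs

universe u

open Classical in
/-- the exponent sum of the letter `x` -/
noncomputable def E {X : Type u} (x : X) : FreeGroup X →* Multiplicative ℤ :=
  FreeGroup.lift (fun y => if y = x then Multiplicative.ofAdd 1 else 1)

open Classical in
/-- the exponent sum of the letter `x` modulo `m` -/
noncomputable def ind {X : Type u} (m : ℕ) (x : X) : X → Multiplicative (ZMod m) :=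
  fun y => if y = x then Multiplicative.ofAdd 1 else 1

theorem lift_ind {X : Type u} (m : ℕ) (x : X) (w : FreeGroup X) :
    FreeGroup.lift (ind m x) w
      = Multiplicative.ofAdd ((Multiplicative.toAdd (E x w) : ℤ) : ZMod m) := by
  have h : FreeGroup.lift (ind m x)
      = (AddMonoidHom.toMultiplicative (Int.castAddHom (ZMod m))).comp (E x) := by
    ext y
    simp only [E, ind, FreeGroup.lift_apply_of, MonoidHom.comp_apply]
    split_ifs
    · simp
    · simp
  rw [h]
  rfl

theorem sep_of_exp {X : Type u} (a b : FreeGroup X) (x : X) (h : E x a ≠ E x b) : Sep a b := by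
  set k : ℤ := Multiplicative.toAdd (E x a) with hk
  set l : ℤ := Multiplicative.toAdd (E x b) with hl
  have hkl : k - l ≠ 0 := by
    intro h0
    apply h
    apply Multiplicative.toAdd.injective
    exact sub_eq_zero.1 h0
  refine ⟨Multiplicative (ZMod ((k - l).natAbs + 1)), inferInstance, inferInstance,
    FreeGroup.lift (ind _ x), ?_⟩
  rw [isConj_iff_eq, lift_ind, lift_ind]
  intro h1
  have h2 : ((k : ℤ) : ZMod ((k - l).natAbs + 1)) = ((l : ℤ) : ZMod ((k - l).natAbs + 1)) :=
    Multiplicative.ofAdd.injective h1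
  rw [← sub_eq_zero, ← Int.cast_sub, ZMod.intCast_zmod_eq_zero_iff_dvd] at h2
  have h3 := Int.natAbs_dvd_natAbs.2 h2
  rw [Int.natAbs_natCast] at h3
  have h4 := Nat.le_of_dvd (Int.natAbs_pos.2 hkl) h3
  omega

theorem mem_zpowers {X : Type u} (x : X) (L : List (X × Bool)) (h : ∀ p ∈ L, p.1 = x) :
    FreeGroup.mk L ∈ Subgroup.zpowers (FreeGroup.of x) := by
  induction L with
  | nil => exact Subgroup.one_mem _
  | cons p L ih =>
    rw [mk_cons]
    refine Subgroup.mul_mem _ ?_ (ih fun q hq => h q (List.mem_cons_of_mem _ hq))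
    obtain ⟨y, c⟩ := p
    have hy : y = x := h (y, c) List.mem_cons_self
    subst hy
    cases c
    · rw [mk_single_false]
      exact Subgroup.inv_mem _ (Subgroup.mem_zpowers _)
    · rw [mk_single_true]
      exact Subgroup.mem_zpowers _

theorem E_zpow {X : Type u} (x : X) (k : ℤ) :
    E x (FreeGroup.of x ^ k) = Multiplicative.ofAdd k := by
  rw [map_zpow]
  simp only [E, FreeGroup.lift_apply_of, if_true]
  rw [← ofAdd_zsmul]
  simp

theorem main (n : ℕ) : ∀ (X : Type u) (a b : FreeGroup X), len a + len b = n →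
    ¬ IsConj a b → Sep a b := by
  induction n using Nat.strong_induction_on with
  | _ n IH' =>
  have IH : ∀ (Y : Type u) (a b : FreeGroup Y), len a + len b < n → ¬ IsConj a b → Sep a b :=
    fun Y a b h1 h2 => IH' _ h1 Y a b rfl h2
  intro X a b hn hab
  by_cases hE : ∃ x, E x a ≠ E x b
  · obtain ⟨x, hx⟩ := hE
    exact sep_of_exp a b x hx
  push Not at hE
  -- one step with a finite group and a letter of one of the two words
  have key : ∀ {A : Type} [Group A] [Finite A] (f : X → A), FreeGroup.lift f a = 1 →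
      FreeGroup.lift f b = 1 → ∀ x0, f x0 ≠ 1 →
      (∃ c, (x0, c) ∈ wrd a ∨ (x0, c) ∈ wrd b) → Sep a b := by
    intro A _ _ f ha hb x0 hf ⟨c, hc⟩
    rcases hc with hc | hc
    · exact step n IH f a b hn ha hb x0 c hc hf hab
    · exact (step n IH f b a (by omega) hb ha x0 c hc hf fun h => hab h.symm).symm
  by_cases h1 : ∃ x, (∃ c, (x, c) ∈ wrd a ∨ (x, c) ∈ wrd b) ∧
      (Multiplicative.toAdd (E x a)).natAbs ≠ 1
  · obtain ⟨x, hx, hx1⟩ := h1
    set e : ℤ := Multiplicative.toAdd (E x a) with he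
    obtain ⟨m, hm2, hm⟩ : ∃ m : ℕ, 2 ≤ m ∧ ((e : ℤ) : ZMod m) = 0 := by
      by_cases h0 : e = 0
      · exact ⟨2, le_rfl, by rw [h0]; simp⟩
      · refine ⟨e.natAbs, ?_, ?_⟩
        · have := Int.natAbs_pos.2 h0
          omega
        · rw [ZMod.intCast_zmod_eq_zero_iff_dvd]
          exact Int.natAbs_dvd.2 dvd_rfl
    have : NeZero m := ⟨by omega⟩
    have : Fact (1 < m) := ⟨by omega⟩
    refine key (ind m x) ?_ ?_ x ?_ hx
    · rw [lift_ind, ← he, hm]; rfl
    · rw [lift_ind, ← hE, ← he, hm]; rfl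
    · simp only [ind, if_true]
      intro h2
      exact one_ne_zero (Multiplicative.ofAdd.injective h2 : (1 : ZMod m) = 0)
  push Not at h1
  by_cases h2 : ∃ x y, x ≠ y ∧ (∃ c, (x, c) ∈ wrd a ∨ (x, c) ∈ wrd b) ∧
      (∃ c, (y, c) ∈ wrd a ∨ (y, c) ∈ wrd b)
  · obtain ⟨x, y, hxy, hx, hy⟩ := h2
    have hx1 := h1 x hx
    have hy1 := h1 y hy
    have hl : ∀ w : FreeGroup X, FreeGroup.lift (fun z => ind 2 x z * ind 2 y z) w
        = FreeGroup.lift (ind 2 x) w * FreeGroup.lift (ind 2 y) w := by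
      intro w
      have h3 : FreeGroup.lift (fun z => ind 2 x z * ind 2 y z)
          = FreeGroup.lift (ind 2 x) * FreeGroup.lift (ind 2 y) := by
        ext z
        simp
      rw [h3]; rfl
    have hv : ∀ k l : ℤ, k.natAbs = 1 → l.natAbs = 1 →
        Multiplicative.ofAdd ((k : ℤ) : ZMod 2) * Multiplicative.ofAdd ((l : ℤ) : ZMod 2)
          = 1 := by
      intro k l hk hl
      rw [← ofAdd_add, ← Int.cast_add]
      have : ((k + l : ℤ) : ZMod 2) = 0 := by
        rw [ZMod.intCast_zmod_eq_zero_iff_dvd]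
        omega
      rw [this]; rfl
    refine key (fun z => ind 2 x z * ind 2 y z) ?_ ?_ x ?_ hx
    · rw [hl, lift_ind, lift_ind]
      exact hv _ _ hx1 hy1
    · rw [hl, lift_ind, lift_ind, ← hE, ← hE]
      exact hv _ _ hx1 hy1
    · simp only [ind, if_true, if_neg hxy, mul_one]
      intro h2
      exact one_ne_zero (Multiplicative.ofAdd.injective h2 : (1 : ZMod 2) = 0)
  push Not at h2
  -- at most one letter
  exfalso
  apply hab
  by_cases h3 : ∃ x, ∃ c, (x, c) ∈ wrd a ∨ (x, c) ∈ wrd b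
  · obtain ⟨x, hx⟩ := h3
    have hx' : ∀ y c, ((y, c) ∈ wrd a ∨ (y, c) ∈ wrd b) → y = x := by
      intro y c hc
      by_contra hne
      obtain ⟨c', hc'⟩ := hx
      have h4 := h2 y x hne ⟨c, hc⟩ c'
      rcases hc' with hc' | hc'
      · exact h4.1 hc'
      · exact h4.2 hc'
    have ha := mem_zpowers x (wrd a) (fun p hp => hx' p.1 p.2 (Or.inl hp))
    have hb := mem_zpowers x (wrd b) (fun p hp => hx' p.1 p.2 (Or.inr hp))
    rw [mk_wrd] at ha hb
    obtain ⟨k, hk⟩ := Subgroup.mem_zpowers_iff.1 ha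
    obtain ⟨l, hl⟩ := Subgroup.mem_zpowers_iff.1 hb
    have h5 := hE x
    rw [← hk, ← hl, E_zpow, E_zpow] at h5
    have h6 : k = l := Multiplicative.ofAdd.injective h5
    rw [← hk, ← hl, h6]
  · push Not at h3
    have ha : wrd a = [] := by
      rw [List.eq_nil_iff_forall_not_mem]
      rintro ⟨x, c⟩ hc
      exact (h3 x c).1 hc
    have hb : wrd b = [] := by
      rw [List.eq_nil_iff_forall_not_mem]
      rintro ⟨x, c⟩ hc
      exact (h3 x c).2 hc
    rw [← mk_wrd a, ← mk_wrd b, ha, hb]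

/-- free groups are conjugacy separable -/
theorem free_conj_sep {X : Type u} (a b : FreeGroup X) (h : ¬ IsConj a b) :
    ∃ (Q : Type) (_ : Group Q) (_ : Finite Q) (ψ : FreeGroup X →* Q),
      ¬ IsConj (ψ a) (ψ b) :=
  main _ X a b rfl h

end Pool.Agent.H45Fcs
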