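import Mathlib

/-!
Free groups are conjugacy separable (package B of helper51's row 1365).
-/

set_option autoImplicit false

namespace Pool.Agent.H45Fcs

universe u v v'

/-- the wreath product of `G` and `A` -/
abbrev Wr (G : Type v) [Group G] (A : Type) [Group A] : Type v :=
  (A → G) ⋊[(mulAutArrow : A →* MulAut (A → G))] A

section wr

variable {X : Type u} {A : Type} [Group A] {G : Type v} [Group G]

/-- the homomorphism into the wreath product -/
def Phi (t : X → A → G) (f : X → A) : FreeGroup X →* Wr G A :=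
  FreeGroup.lift (fun x => (⟨t x, f x⟩ : Wr G A))

theorem Phi_right (t : X → A → G) (f : X → A) (w : FreeGroup X) :
    (Phi t f w).right = FreeGroup.lift f w := by
  have h : (SemidirectProduct.rightHom).comp (Phi t f) = FreeGroup.lift f := by
    ext x
    simp [Phi]
  have := DFunLike.congr_fun h w
  simpa using this

theorem Phi_of (t : X → A → G) (f : X → A) (x : X) (i : A) :
    (Phi t f (FreeGroup.of x)).left i = t x i := by
  simp [Phi]

theorem Phi_one (t : X → A → G) (f : X → A) (i : A) :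
    (Phi t f 1).left i = 1 := by
  simp

theorem Phi_mul (t : X → A → G) (f : X → A) (w w' : FreeGroup X) (i : A) :
    (Phi t f (w * w')).left i
      = (Phi t f w).left i * (Phi t f w').left ((FreeGroup.lift f w)⁻¹ * i) := by
  rw [map_mul, SemidirectProduct.mul_left, Pi.mul_apply, Phi_right]
  rfl

theorem Phi_inv (t : X → A → G) (f : X → A) (w : FreeGroup X) (i : A) :
    (Phi t f w⁻¹).left i = ((Phi t f w).left (FreeGroup.lift f w * i))⁻¹ := by
  have h := Phi_mul t f w⁻¹ w i
  rw [inv_mul_cancel, Phi_one, map_inv (FreeGroup.lift f), inv_inv] at h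
  exact eq_inv_of_mul_eq_one_left h.symm

theorem Phi_map {G' : Type v'} [Group G'] (ψ : G →* G') (t : X → A → G) (f : X → A)
    (w : FreeGroup X) : ∀ i : A,
    (Phi (fun x i => ψ (t x i)) f w).left i = ψ ((Phi t f w).left i) := by
  induction w using FreeGroup.induction_on with
  | C1 => intro i; simp
  | of x =>
    intro i
    change (Phi _ f (FreeGroup.of x)).left i = ψ ((Phi t f (FreeGroup.of x)).left i)
    rw [Phi_of, Phi_of]
  | inv_of x ih => intro i; rw [Phi_inv, Phi_inv, ih, map_inv]
  | mul x y hx hy => intro i; rw [Phi_mul, Phi_mul, hx, hy, map_mul]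

end wr

/-- `u` and `v` are not conjugate in some finite quotient -/
def Sep {X : Type u} (a b : FreeGroup X) : Prop :=
  ∃ (Q : Type) (_ : Group Q) (_ : Finite Q) (ψ : FreeGroup X →* Q), ¬ IsConj (ψ a) (ψ b)

theorem Sep.symm {X : Type u} {a b : FreeGroup X} (h : Sep a b) : Sep b a := by
  obtain ⟨Q, i1, i2, ψ, hψ⟩ := h
  exact ⟨Q, i1, i2, ψ, fun h => hψ h.symm⟩

theorem step_quot {X Y : Type u} {A : Type} [Group A] [Finite A] (t : X → A → FreeGroup Y)
    (f : X → A) (a b : FreeGroup X) (hb : FreeGroup.lift f b = 1) (i0 : A)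
    (h : ∀ j : A, Sep ((Phi t f a).left i0) ((Phi t f b).left j)) : Sep a b := by
  choose Q gQ fQ ψ hψ using h
  let ψ' : FreeGroup Y →* (∀ j, Q j) := Pi.monoidHom ψ
  refine ⟨Wr (∀ j, Q j) A, inferInstance, ?_, Phi (fun x i => ψ' (t x i)) f, ?_⟩
  · exact Finite.of_injective (fun w : Wr (∀ j, Q j) A => (w.left, w.right)) (by
      intro x y hxy
      simp only [Prod.mk.injEq] at hxy
      exact SemidirectProduct.ext hxy.1 hxy.2)
  · intro hc
    rw [isConj_iff] at hc
    obtain ⟨g, hg⟩ := hc
    have h1 : g * Phi (fun x i => ψ' (t x i)) f a = Phi (fun x i => ψ' (t x i)) f b * g := by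
      rw [← hg]; group
    have h2 := congrArg (fun w => w.left (g.right * i0)) h1
    simp only [SemidirectProduct.mul_left, Pi.mul_apply, Phi_right, hb, map_one,
      MulAut.one_apply] at h2
    have h3 : (mulAutArrow g.right (Phi (fun x i => ψ' (t x i)) f a).left) (g.right * i0)
        = (Phi (fun x i => ψ' (t x i)) f a).left (g.right⁻¹ * (g.right * i0)) := rfl
    rw [h3, inv_mul_cancel_left, Phi_map, Phi_map] at h2
    have h4 := congrArg (fun w => w (g.right * i0)) h2
    apply hψ (g.right * i0)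
    rw [isConj_iff]
    refine ⟨g.left (g.right * i0) (g.right * i0), ?_⟩
    have h5 : g.left (g.right * i0) (g.right * i0) * ψ (g.right * i0) ((Phi t f a).left i0)
        = ψ (g.right * i0) ((Phi t f b).left (g.right * i0))
          * g.left (g.right * i0) (g.right * i0) := h4
    rw [h5]
    group

theorem conj_back {X Y : Type u} {A : Type} [Group A] (t : X → A → FreeGroup Y) (f : X → A)
    (s : A → FreeGroup X) (ρ : FreeGroup Y →* FreeGroup X)
    (hρ : ∀ x i, ρ (t x i) = s i * FreeGroup.of x * (s ((f x)⁻¹ * i))⁻¹) (w : FreeGroup X) :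
    ∀ i, ρ ((Phi t f w).left i) = s i * w * (s ((FreeGroup.lift f w)⁻¹ * i))⁻¹ := by
  induction w using FreeGroup.induction_on with
  | C1 => intro i; simp
  | of x =>
    intro i
    change ρ ((Phi t f (FreeGroup.of x)).left i)
      = s i * FreeGroup.of x * (s ((FreeGroup.lift f (FreeGroup.of x))⁻¹ * i))⁻¹
    rw [Phi_of, hρ, FreeGroup.lift_apply_of]
  | inv_of x ih =>
    intro i
    rw [Phi_inv, map_inv, ih, inv_mul_cancel_left, map_inv, inv_inv]
    group
  | mul x y hx hy =>
    intro i
    rw [Phi_mul, map_mul, hx, hy, map_mul, mul_inv_rev, mul_assoc _ _ i]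
    group

/-- the length of the reduced word -/
noncomputable def len {X : Type u} (w : FreeGroup X) : ℕ :=
  letI := Classical.decEq X
  w.norm

/-- the reduced word -/
noncomputable def wrd {X : Type u} (w : FreeGroup X) : List (X × Bool) :=
  letI := Classical.decEq X
  w.toWord

theorem len_eq {X : Type u} (w : FreeGroup X) : len w = (wrd w).length := rfl

theorem mk_wrd {X : Type u} (w : FreeGroup X) : FreeGroup.mk (wrd w) = w := by
  letI := Classical.decEq X
  exact FreeGroup.mk_toWord

theorem len_mul {X : Type u} (a b : FreeGroup X) : len (a * b) ≤ len a + len b := by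
  letI := Classical.decEq X
  exact FreeGroup.norm_mul_le a b

theorem len_inv {X : Type u} (a : FreeGroup X) : len a⁻¹ = len a := by
  letI := Classical.decEq X
  exact FreeGroup.norm_inv_eq

theorem len_one {X : Type u} : len (1 : FreeGroup X) = 0 := by
  letI := Classical.decEq X
  exact FreeGroup.norm_one

theorem len_of {X : Type u} (x : X) : len (FreeGroup.of x) = 1 := by
  letI := Classical.decEq X
  exact FreeGroup.norm_of x

theorem mk_single_true {X : Type u} (x : X) : FreeGroup.mk [(x, true)] = FreeGroup.of x := rfl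

theorem mk_single_false {X : Type u} (x : X) :
    FreeGroup.mk [(x, false)] = (FreeGroup.of x)⁻¹ := rfl

theorem mk_cons {X : Type u} (p : X × Bool) (L : List (X × Bool)) :
    FreeGroup.mk (p :: L) = FreeGroup.mk [p] * FreeGroup.mk L := by
  rw [FreeGroup.mul_mk]; rfl

theorem len_single {X Y : Type u} {A : Type} [Group A] {t : X → A → FreeGroup Y} {f : X → A}
    (ht : ∀ x i, len (t x i) ≤ 1) (p : X × Bool) (i : A) :
    len ((Phi t f (FreeGroup.mk [p])).left i) ≤ 1 := by
  obtain ⟨x, b⟩ := p
  cases b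
  · rw [mk_single_false, Phi_inv, len_inv, Phi_of]
    exact ht _ _
  · rw [mk_single_true, Phi_of]
    exact ht _ _

theorem len_mk_le {X Y : Type u} {A : Type} [Group A] {t : X → A → FreeGroup Y} {f : X → A}
    (ht : ∀ x i, len (t x i) ≤ 1) (L : List (X × Bool)) :
    ∀ i, len ((Phi t f (FreeGroup.mk L)).left i) ≤ L.length := by
  induction L with
  | nil =>
    intro i
    have : (FreeGroup.mk ([] : List (X × Bool))) = 1 := rfl
    rw [this, Phi_one, len_one]
    simp
  | cons p L ih =>
    intro i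
    rw [mk_cons, Phi_mul, List.length_cons]
    have h1 := len_single ht (f := f) p i
    have h2 := ih ((FreeGroup.lift f (FreeGroup.mk [p]))⁻¹ * i)
    have h3 := len_mul ((Phi t f (FreeGroup.mk [p])).left i)
      ((Phi t f (FreeGroup.mk L)).left ((FreeGroup.lift f (FreeGroup.mk [p]))⁻¹ * i))
    omega

theorem len_le {X Y : Type u} {A : Type} [Group A] {t : X → A → FreeGroup Y} {f : X → A}
    (ht : ∀ x i, len (t x i) ≤ 1) (w : FreeGroup X) (i : A) :
    len ((Phi t f w).left i) ≤ len w := by
  have h := len_mk_le ht (f := f) (wrd w) i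
  rw [mk_wrd] at h
  exact h

/-- the letters -/
noncomputable def tt {X : Type u} {A : Type} (x0 : X) (i1 : A) (x : X) (i : A) :
    FreeGroup (X × A) :=
  open Classical in if x = x0 ∧ i = i1 then 1 else FreeGroup.of (x, i)

theorem len_tt {X : Type u} {A : Type} (x0 : X) (i1 : A) (x : X) (i : A) :
    len (tt x0 i1 x i) ≤ 1 := by
  unfold tt
  split_ifs
  · rw [len_one]; omega
  · rw [len_of]

theorem conj_tt {X : Type u} {A : Type} [Group A] (f : X → A) (x0 : X) (i1 : A)
    (hf : f x0 ≠ 1) (a b : FreeGroup X) (ha : FreeGroup.lift f a = 1)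
    (hb : FreeGroup.lift f b = 1) (i j : A)
    (h : IsConj ((Phi (tt x0 i1) f a).left i) ((Phi (tt x0 i1) f b).left j)) : IsConj a b := by
  classical
  let s : A → FreeGroup X := fun i => if i = (f x0)⁻¹ * i1 then FreeGroup.of x0 else 1
  let ρ : FreeGroup (X × A) →* FreeGroup X :=
    FreeGroup.lift (fun p => s p.2 * FreeGroup.of p.1 * (s ((f p.1)⁻¹ * p.2))⁻¹)
  have hρ : ∀ x i, ρ (tt x0 i1 x i) = s i * FreeGroup.of x * (s ((f x)⁻¹ * i))⁻¹ := by
    intro x i
    unfold tt
    split_ifs with hc
    · obtain ⟨rfl, rfl⟩ := hc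
      have h1 : s i = 1 := by
        simp only [s]
        rw [if_neg]
        intro h2
        apply hf
        have h3 : (f x)⁻¹ * i = 1 * i := by rw [one_mul]; exact h2.symm
        have h4 := mul_right_cancel h3
        exact inv_eq_one.1 h4
      have h2 : s ((f x)⁻¹ * i) = FreeGroup.of x := by
        simp only [s]
        rw [if_pos trivial]
      rw [h1, h2, map_one]
      group
    · simp only [ρ, FreeGroup.lift_apply_of]
  have h1 := conj_back (tt x0 i1) f s ρ hρ a i
  have h2 := conj_back (tt x0 i1) f s ρ hρ b j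
  rw [ha, inv_one, one_mul] at h1
  rw [hb, inv_one, one_mul] at h2
  have h3 : IsConj (ρ ((Phi (tt x0 i1) f a).left i)) (ρ ((Phi (tt x0 i1) f b).left j)) :=
    MonoidHom.map_isConj ρ h
  rw [h1, h2] at h3
  have h4 : IsConj a (s i * a * (s i)⁻¹) := isConj_iff.2 ⟨s i, rfl⟩
  have h5 : IsConj b (s j * b * (s j)⁻¹) := isConj_iff.2 ⟨s j, rfl⟩
  exact (h4.trans h3).trans h5.symm

theorem step {X : Type u} (n : ℕ)
    (IH : ∀ (Y : Type u) (a b : FreeGroup Y), len a + len b < n → ¬ IsConj a b → Sep a b)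
    {A : Type} [Group A] [Finite A] (f : X → A) (a b : FreeGroup X) (hn : len a + len b = n)
    (ha : FreeGroup.lift f a = 1) (hb : FreeGroup.lift f b = 1) (x0 : X) (c : Bool)
    (hx : (x0, c) ∈ wrd a) (hf : f x0 ≠ 1) (h : ¬ IsConj a b) : Sep a b := by
  obtain ⟨L1, L2, hL⟩ := List.append_of_mem hx
  -- the contracted edge
  obtain ⟨i1, hi1⟩ : ∃ i1 : A, (Phi (tt x0 i1) f (FreeGroup.mk [(x0, c)])).left
      ((FreeGroup.lift f (FreeGroup.mk L1))⁻¹ * 1) = 1 := by
    cases c
    · refine ⟨f x0 * ((FreeGroup.lift f (FreeGroup.mk L1))⁻¹ * 1), ?_⟩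
      rw [mk_single_false, Phi_inv, Phi_of, FreeGroup.lift_apply_of]
      simp [tt]
    · refine ⟨(FreeGroup.lift f (FreeGroup.mk L1))⁻¹ * 1, ?_⟩
      rw [mk_single_true, Phi_of]
      simp [tt]
  have hlt : len ((Phi (tt x0 i1) f a).left 1) < len a := by
    have e1 : a = FreeGroup.mk L1 * (FreeGroup.mk [(x0, c)] * FreeGroup.mk L2) := by
      rw [← mk_cons, FreeGroup.mul_mk, ← hL, mk_wrd]
    have e2 : len a = L1.length + (L2.length + 1) := by
      rw [len_eq, hL]; simp
    have e3 : (Phi (tt x0 i1) f a).left 1 = (Phi (tt x0 i1) f (FreeGroup.mk L1)).left 1 *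
        (Phi (tt x0 i1) f (FreeGroup.mk L2)).left ((FreeGroup.lift f (FreeGroup.mk [(x0, c)]))⁻¹
          * ((FreeGroup.lift f (FreeGroup.mk L1))⁻¹ * 1)) := by
      conv_lhs => rw [e1]
      rw [Phi_mul, Phi_mul, hi1, one_mul]
    have h1 := len_mk_le (t := tt x0 i1) (f := f) (len_tt x0 i1) L1 1
    have h2 := len_mk_le (t := tt x0 i1) (f := f) (len_tt x0 i1) L2
      ((FreeGroup.lift f (FreeGroup.mk [(x0, c)]))⁻¹
          * ((FreeGroup.lift f (FreeGroup.mk L1))⁻¹ * 1))
    have h3 := len_mul ((Phi (tt x0 i1) f (FreeGroup.mk L1)).left 1)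
      ((Phi (tt x0 i1) f (FreeGroup.mk L2)).left ((FreeGroup.lift f (FreeGroup.mk [(x0, c)]))⁻¹
          * ((FreeGroup.lift f (FreeGroup.mk L1))⁻¹ * 1)))
    rw [e3, e2]
    omega
  refine step_quot (tt x0 i1) f a b hb 1 (fun j => ?_)
  apply IH
  · have := len_le (t := tt x0 i1) (f := f) (len_tt x0 i1) b j
    omega
  · intro hc
    exact h (conj_tt f x0 i1 hf a b ha hb 1 j hc)

end Pool.Agent.H45Fcs
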